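import Mathlib

/-!
# MP_651eca_nt, Q1: the mixed cubic sum of Shapiro Catalan triangle numbers (true)

Let `Sg n m = ∑ k³ C(2n, n+k)² C(2m, m+k)`. With `N = n`, `M = m + 1` and
`s(k) = -((N + 2M) k (k - 1) + N M)/2`, the function `G(k) = s(k) (N + k)² (M + k) C(2n, n+k)² C(2M, M+k)`
satisfies
`G(k+1) - G(k) = k³ C(2n, n+k)² ((N+M)² (N+2M-2) C(2M, M+k) - (N+2M) 2M (2M-1) C(2m, m+k))`,
which gives a first order recurrence for `Sg n m` in `m`. It yields
`Sg n m = n² C(2n,n)² C(2m,m)/2 · (m - (n+2m) T n m / C(n+m,n)²)` with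
`T n m = ∑_{j<m} C(n+j,n) C(n+j,n-1)`, for all `n ≥ 1` and `m`. For `m ≤ n` this is the asserted identity,
and for `n ≤ m` one uses a second telescoping identity.
-/

set_option autoImplicit false

namespace Pool.Agent.Results.MP_651eca_nt.Full

open Finset

/-- Shapiro's Catalan triangle -/
def B (n k : ℕ) : ℚ := (k : ℚ) / n * (Nat.choose (2 * n) (n - k) : ℚ)

lemma c1 (n k : ℕ) : ((2 * n).choose (n + k + 1) : ℚ) * (n + k + 1) =
    ((2 * n).choose (n + k) : ℚ) * (n - k) := by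
  rcases le_or_gt k n with h | h
  · have := Nat.choose_succ_right_eq (2 * n) (n + k)
    have h2 : 2 * n - (n + k) = n - k := by omega
    rw [h2] at this
    have h3 : (((2 * n).choose (n + k + 1) * (n + k + 1) : ℕ) : ℚ) =
      (((2 * n).choose (n + k) * (n - k) : ℕ) : ℚ) := by rw [this]
    push_cast [Nat.cast_sub h] at h3
    exact h3
  · rw [Nat.choose_eq_zero_of_lt (show 2 * n < n + k + 1 by omega),
      Nat.choose_eq_zero_of_lt (show 2 * n < n + k by omega)]
    simp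

lemma c2 (m k : ℕ) : ((2 * (m + 1)).choose (m + 1 + k) : ℚ) * ((m + 1 - k) * (m + 1 + k)) =
    ((2 * m).choose (m + k) : ℚ) * ((2 * m + 2) * (2 * m + 1)) := by
  rcases le_or_gt k m with h | h
  · -- C(2m+2, m+1+k) (m+1+k) = (2m+2) C(2m+1, m+k), C(2m+1, m+k) (m+1-k) = (2m+1) C(2m, m+k)
    have e1 : ((2 * m + 2).choose (m + k + 1) : ℚ) * (m + k + 1) =
        (2 * m + 2) * ((2 * m + 1).choose (m + k) : ℚ) := by
      have := Nat.add_one_mul_choose_eq (2 * m + 1) (m + k)
      have h3 : (((2 * m + 1 + 1) * (2 * m + 1).choose (m + k) : ℕ) : ℚ) =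
        (((2 * m + 1 + 1).choose (m + k + 1) * (m + k + 1) : ℕ) : ℚ) := by rw [this]
      push_cast at h3
      rw [show (2 * m + 2) = 2 * m + 1 + 1 by ring]
      push_cast
      linarith
    have e2 : ((2 * m + 1).choose (m + k) : ℚ) * (m + 1 - k) =
        (2 * m + 1) * ((2 * m).choose (m + k) : ℚ) := by
      have := Nat.choose_mul_succ_eq (2 * m) (m + k)
      rw [show 2 * m + 1 - (m + k) = m + 1 - k by omega] at this
      have h3 : (((2 * m).choose (m + k) * (2 * m + 1) : ℕ) : ℚ) =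
        (((2 * m + 1).choose (m + k) * (m + 1 - k) : ℕ) : ℚ) := by
        rw [← this]
      push_cast [Nat.cast_sub (show k ≤ m + 1 by omega)] at h3
      linarith
    rw [show 2 * (m + 1) = 2 * m + 2 by ring, show m + 1 + k = m + k + 1 by ring]
    linear_combination (m + 1 - k) * e1 + (2 * m + 2) * e2
  · rcases Nat.lt_or_ge (m + 1) k with h2 | h2
    · rw [Nat.choose_eq_zero_of_lt (show 2 * (m + 1) < m + 1 + k by omega),
        Nat.choose_eq_zero_of_lt (show 2 * m < m + k by omega)]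
      simp
    · have h3 : k = m + 1 := by omega
      subst h3
      rw [Nat.choose_eq_zero_of_lt (show 2 * m < m + (m + 1) by omega)]
      push_cast
      ring

/-- the normalised sum -/
def Sg (K n m : ℕ) : ℚ :=
  ∑ k ∈ range K, (k : ℚ) ^ 3 * ((2 * n).choose (n + k) : ℚ) ^ 2 * ((2 * m).choose (m + k) : ℚ)

/-- the telescoping function -/
def G (n m k : ℕ) : ℚ :=
  -((n + 2 * (m + 1)) * k * (k - 1) + n * (m + 1)) / 2 * (n + k) ^ 2 * (m + 1 + k) *
    ((2 * n).choose (n + k) : ℚ) ^ 2 * ((2 * (m + 1)).choose (m + 1 + k) : ℚ)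

lemma tel (n m k : ℕ) : G n m (k + 1) - G n m k =
    (n + m + 1) ^ 2 * (n + 2 * m) *
      ((k : ℚ) ^ 3 * ((2 * n).choose (n + k) : ℚ) ^ 2 * ((2 * (m + 1)).choose (m + 1 + k) : ℚ)) -
    (n + 2 * m + 2) * (2 * m + 2) * (2 * m + 1) *
      ((k : ℚ) ^ 3 * ((2 * n).choose (n + k) : ℚ) ^ 2 * ((2 * m).choose (m + k) : ℚ)) := by
  have e1 := c1 n k
  have e2 := c1 (m + 1) k
  have e3 := c2 m k
  unfold G
  rw [show n + (k + 1) = n + k + 1 by ring, show m + 1 + (k + 1) = m + 1 + k + 1 by ring]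
  push_cast at *
  set a : ℚ := ((2 * n).choose (n + k) : ℚ)
  set a' : ℚ := ((2 * n).choose (n + k + 1) : ℚ)
  set b : ℚ := ((2 * (m + 1)).choose (m + 1 + k) : ℚ)
  set b' : ℚ := ((2 * (m + 1)).choose (m + 1 + k + 1) : ℚ)
  set c : ℚ := ((2 * m).choose (m + k) : ℚ)
  have e4 : -((n + 2 * (m + 1)) * (k + 1) * ((k + 1 : ℚ) - 1) + n * (m + 1)) / 2 * (n + (k + 1)) ^ 2 *
      (m + 1 + (k + 1)) * a' ^ 2 * b' =
      -((n + 2 * (m + 1)) * (k + 1) * ((k + 1 : ℚ) - 1) + n * (m + 1)) / 2 * (a' * (n + k + 1)) ^ 2 *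
        (b' * (m + 1 + k + 1)) := by ring
  rw [e4, e1, e2]
  linear_combination (-((n : ℚ) + 2 * m + 2) * k ^ 3 * a ^ 2) * e3

lemma G_zero (n m : ℕ) : G n m 0 = -(n ^ 3 * (m + 1) ^ 2 / 2 * ((2 * n).choose n : ℚ) ^ 2 *
    ((2 * (m + 1)).choose (m + 1) : ℚ)) := by
  unfold G
  simp
  ring

lemma G_large (K n m : ℕ) (h : n < K) : G n m K = 0 := by
  unfold G
  rw [Nat.choose_eq_zero_of_lt (show 2 * n < n + K by omega)]
  simp

lemma rec1 (K n m : ℕ) (h : n < K) :
    (n + m + 1) ^ 2 * (n + 2 * m) * Sg K n (m + 1) -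
      (n + 2 * m + 2) * (2 * m + 2) * (2 * m + 1) * Sg K n m =
    n ^ 3 * (m + 1) ^ 2 / 2 * ((2 * n).choose n : ℚ) ^ 2 * ((2 * (m + 1)).choose (m + 1) : ℚ) := by
  have h1 : ∑ k ∈ range K, (G n m (k + 1) - G n m k) = G n m K - G n m 0 :=
    Finset.sum_range_sub _ _
  rw [G_zero, G_large K n m h, Finset.sum_congr rfl (fun k _ => tel n m k), Finset.sum_sub_distrib,
    ← Finset.mul_sum, ← Finset.mul_sum] at h1
  unfold Sg
  rw [h1]
  ring

/-- the sum in the closed form -/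
def T (n m : ℕ) : ℚ := ∑ j ∈ range m, ((n + j).choose n : ℚ) * ((n + j).choose (n - 1) : ℚ)

lemma c3 (n m : ℕ) : ((n + (m + 1)).choose n : ℚ) * (m + 1) = ((n + m).choose n : ℚ) * (n + m + 1) := by
  have := Nat.choose_mul_succ_eq (n + m) n
  rw [show n + m + 1 - n = m + 1 by omega] at this
  have h3 : (((n + m).choose n * (n + m + 1) : ℕ) : ℚ) = (((n + m + 1).choose n * (m + 1) : ℕ) : ℚ) := by
    rw [this]
  push_cast at h3
  rw [← add_assoc]
  linarith

lemma c4 (n m : ℕ) (hn : 1 ≤ n) :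
    ((n + m).choose (n - 1) : ℚ) * (m + 1) = ((n + m).choose n : ℚ) * n := by
  obtain ⟨l, rfl⟩ : ∃ l, n = l + 1 := ⟨n - 1, by omega⟩
  have := Nat.choose_succ_right_eq (l + 1 + m) l
  rw [show l + 1 + m - l = m + 1 by omega] at this
  have h3 : (((l + 1 + m).choose (l + 1) * (l + 1) : ℕ) : ℚ) =
    (((l + 1 + m).choose l * (m + 1) : ℕ) : ℚ) := by rw [this]
  push_cast at h3
  simp only [Nat.add_sub_cancel]
  push_cast
  linarith

lemma c5 (m : ℕ) : ((2 * (m + 1)).choose (m + 1) : ℚ) * (m + 1) =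
    ((2 * m).choose m : ℚ) * (2 * (2 * m + 1)) := by
  have h1 := c2 m 0
  simp only [Nat.cast_zero, add_zero, sub_zero] at h1
  have h2 : (m + 1 : ℚ) ≠ 0 := by positivity
  apply mul_right_cancel₀ h2
  linear_combination h1

lemma closed (K n : ℕ) (hn : 1 ≤ n) (h : n < K) (m : ℕ) :
    Sg K n m = n ^ 2 / 2 * ((2 * n).choose n : ℚ) ^ 2 * ((2 * m).choose m : ℚ) *
      (m - (n + 2 * m) * T n m / ((n + m).choose n : ℚ) ^ 2) := by
  induction m with
  | zero =>
    simp only [Sg, T]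
    rw [Finset.sum_eq_zero]
    · simp
    · intro k _
      rcases Nat.eq_zero_or_pos k with rfl | hk
      · simp
      · rw [Nat.choose_eq_zero_of_lt (show 2 * 0 < 0 + k by omega)]
        simp
  | succ m ih =>
    have h1 := rec1 K n m h
    have e1 := c3 n m
    have e2 := c4 n m hn
    have e3 := c5 m
    have hT : T n (m + 1) = T n m + ((n + m).choose n : ℚ) * ((n + m).choose (n - 1) : ℚ) := by
      unfold T
      rw [Finset.sum_range_succ]
    rw [ih] at h1
    rw [hT]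
    have hm : (m + 1 : ℚ) ≠ 0 := by positivity
    have hu : ((n + m).choose n : ℚ) ≠ 0 := by
      have := Nat.choose_pos (show n ≤ n + m by omega)
      positivity
    have hn0 : (n : ℚ) ≠ 0 := by positivity
    set u : ℚ := ((n + m).choose n : ℚ)
    set C : ℚ := ((2 * n).choose n : ℚ)
    set w : ℚ := ((2 * m).choose m : ℚ)
    have f1 : ((n + (m + 1)).choose n : ℚ) = u * (n + m + 1) / (m + 1) := by
      rw [eq_div_iff hm]; exact e1
    have f2 : ((n + m).choose (n - 1) : ℚ) = u * n / (m + 1) := by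
      rw [eq_div_iff hm]; exact e2
    have f3 : ((2 * (m + 1)).choose (m + 1) : ℚ) = w * (2 * (2 * m + 1)) / (m + 1) := by
      rw [eq_div_iff hm]; exact e3
    rw [f3] at h1
    rw [f1, f2, f3]
    have hd : ((n : ℚ) + m + 1) ^ 2 * (n + 2 * m) ≠ 0 := by positivity
    apply mul_left_cancel₀ hd
    have h2 : ((n : ℚ) + m + 1) ^ 2 * (n + 2 * m) * Sg K n (m + 1) =
        n ^ 3 * (m + 1) ^ 2 / 2 * C ^ 2 * (w * (2 * (2 * m + 1)) / (m + 1)) +
        (n + 2 * m + 2) * (2 * m + 2) * (2 * m + 1) *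
          (n ^ 2 / 2 * C ^ 2 * w * (m - (n + 2 * m) * T n m / u ^ 2)) := by
      rw [← h1]; ring
    rw [h2]
    have hnm : (n : ℚ) + m + 1 ≠ 0 := by positivity
    push_cast
    field_simp
    ring

/-- the second telescoping identity -/
def V (n m : ℕ) : ℚ := ∑ j ∈ range n, ((m + j).choose m : ℚ) * ((n + j).choose (n - 1) : ℚ)

lemma tel2 (n m j : ℕ) (hn : 1 ≤ n) :
    (((j + 1 : ℕ) : ℚ) * ((j + 1 : ℕ) + 1) * ((m + (j + 1)).choose m : ℚ) *
        ((n + (j + 1)).choose (n - 1) : ℚ) -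
      (j : ℚ) * (j + 1) * ((m + j).choose m : ℚ) * ((n + j).choose (n - 1) : ℚ)) / (m + 1) =
    (n + m + 1) * (((m + 1 + j).choose (m + 1) : ℚ) * ((n + j).choose (n - 1) : ℚ)) -
      m * (((m + j).choose m : ℚ) * ((n + j).choose (n - 1) : ℚ)) := by
  have e1 := c3 m j
  have e2 := c4 n j hn
  have e3 := c4 n (j + 1) hn
  have e4 := c3 n j
  have e5 : ((m + 1 + j).choose (m + 1) : ℚ) * (m + 1) = ((m + j).choose m : ℚ) * (m + j + 1) := by
    have := Nat.add_one_mul_choose_eq (m + j) m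
    have h3 : (((m + j + 1) * (m + j).choose m : ℕ) : ℚ) =
      (((m + j + 1).choose (m + 1) * (m + 1) : ℕ) : ℚ) := by rw [this]
    push_cast at h3
    rw [show m + 1 + j = m + j + 1 by ring]
    linarith
  have hj : (j + 1 : ℚ) ≠ 0 := by positivity
  have hj2 : (j + 1 + 1 : ℚ) ≠ 0 := by positivity
  have hm : (m + 1 : ℚ) ≠ 0 := by positivity
  push_cast at *
  set x : ℚ := ((m + j).choose m : ℚ)
  set y : ℚ := ((n + j).choose n : ℚ)
  have f1 : ((m + (j + 1)).choose m : ℚ) = x * (m + j + 1) / (j + 1) := by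
    rw [eq_div_iff hj]; exact e1
  have f2 : ((n + j).choose (n - 1) : ℚ) = y * n / (j + 1) := by
    rw [eq_div_iff hj]; exact e2
  have f4 : ((n + (j + 1)).choose n : ℚ) = y * (n + j + 1) / (j + 1) := by
    rw [eq_div_iff hj]; exact e4
  have f3 : ((n + (j + 1)).choose (n - 1) : ℚ) = y * (n + j + 1) / (j + 1) * n / (j + 1 + 1) := by
    rw [eq_div_iff hj2, ← f4]; exact e3
  have f5 : ((m + 1 + j).choose (m + 1) : ℚ) = x * (m + j + 1) / (m + 1) := by
    rw [eq_div_iff hm]; exact e5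
  rw [f1, f2, f3, f5]
  field_simp
  ring

lemma rec2 (n m : ℕ) (hn : 1 ≤ n) :
    (n + m + 1) * V n (m + 1) - m * V n m =
      n * ((2 * n).choose n : ℚ) * ((n + m).choose (n - 1) : ℚ) := by
  have h1 : ∑ j ∈ range n, ((((j + 1 : ℕ) : ℚ) * ((j + 1 : ℕ) + 1) * ((m + (j + 1)).choose m : ℚ) *
        ((n + (j + 1)).choose (n - 1) : ℚ)) / (m + 1) -
      ((j : ℚ) * (j + 1) * ((m + j).choose m : ℚ) * ((n + j).choose (n - 1) : ℚ)) / (m + 1)) = _ :=
    Finset.sum_range_sub (fun j : ℕ => ((j : ℚ) * (j + 1) * ((m + j).choose m : ℚ) *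
      ((n + j).choose (n - 1) : ℚ)) / (m + 1)) n
  rw [Finset.sum_congr rfl (fun j _ => by rw [← sub_div, tel2 n m j hn]), Finset.sum_sub_distrib,
    ← Finset.mul_sum, ← Finset.mul_sum] at h1
  unfold V
  rw [h1]
  have e1 := c4 n n hn
  have e2 := c4 n m hn
  have e3 : ((m + n).choose m : ℚ) = ((n + m).choose n : ℚ) := by
    rw [add_comm m n, Nat.choose_symm_add]
  have hm : (m + 1 : ℚ) ≠ 0 := by positivity
  have hn1 : (n + 1 : ℚ) ≠ 0 := by positivity
  have f1 : ((n + n).choose (n - 1) : ℚ) = ((n + n).choose n : ℚ) * n / (n + 1) := by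
    rw [eq_div_iff hn1]; exact e1
  have f2 : ((n + m).choose (n - 1) : ℚ) = ((n + m).choose n : ℚ) * n / (m + 1) := by
    rw [eq_div_iff hm]; exact e2
  rw [f1, f2, e3, two_mul]
  simp only [Nat.cast_zero, zero_mul, zero_div, sub_zero]
  field_simp

lemma VT (n : ℕ) (hn : 1 ≤ n) (d : ℕ) :
    ((n + d : ℕ) : ℚ) * ((n + (n + d)).choose n : ℚ) * V n (n + d) =
      n * ((2 * n).choose n : ℚ) * T n (n + d) := by
  induction d with
  | zero =>
    simp only [add_zero, V, T, two_mul]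
  | succ d ih =>
    have h1 := rec2 n (n + d) hn
    have e1 := c3 n (n + d)
    have e2 := c4 n (n + d) hn
    have hT : T n (n + d + 1) = T n (n + d) +
        ((n + (n + d)).choose n : ℚ) * ((n + (n + d)).choose (n - 1) : ℚ) := by
      unfold T
      rw [Finset.sum_range_succ]
    rw [← add_assoc n d 1, hT]
    push_cast at *
    have hm : ((n : ℚ) + d + 1) ≠ 0 := by positivity
    linear_combination (V n (n + d + 1)) * e1 + ih + ((n + (n + d)).choose n : ℚ) * h1

/-- The mixed cubic identity holds for all `n, m ≥ 1`. -/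
theorem result (n m : ℕ) (hn : 1 ≤ n) (hm : 1 ≤ m) :
    ∑ k ∈ Finset.Icc 1 (min n m), B n k ^ 2 * B m k =
      1 / 2 * ((2 * n).choose n : ℚ) ^ 2 * ((2 * m).choose m : ℚ) *
        (1 - ((n : ℚ) + 2 * m) / (min n m : ℕ) * ((n + m).choose n : ℚ)⁻¹ *
          ((n + min n m).choose n : ℚ)⁻¹ *
          ∑ j ∈ Finset.range (min n m),
            ((max n m + j).choose (max n m) : ℚ) * ((n + j).choose (n - 1) : ℚ)) := by
  have hn0 : (n : ℚ) ≠ 0 := by positivity
  have hm0 : (m : ℚ) ≠ 0 := by positivity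
  have hu : ((n + m).choose n : ℚ) ≠ 0 := by
    have := Nat.choose_pos (show n ≤ n + m by omega)
    positivity
  have h1 : ∑ k ∈ Finset.Icc 1 (min n m), B n k ^ 2 * B m k =
      Sg (n + 1) n m / (n ^ 2 * m) := by
    unfold Sg
    rw [Finset.sum_div]
    have h2 : Finset.Icc 1 (min n m) ⊆ range (n + 1) := by
      intro k hk
      rw [Finset.mem_Icc] at hk
      rw [Finset.mem_range]
      omega
    rw [← Finset.sum_subset h2]
    · apply Finset.sum_congr rfl
      intro k hk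
      rw [Finset.mem_Icc] at hk
      unfold B
      have e1 : (2 * n).choose (n - k) = (2 * n).choose (n + k) := by
        rw [← Nat.choose_symm (show n + k ≤ 2 * n by omega)]
        congr 1
        omega
      have e2 : (2 * m).choose (m - k) = (2 * m).choose (m + k) := by
        rw [← Nat.choose_symm (show m + k ≤ 2 * m by omega)]
        congr 1
        omega
      rw [e1, e2]
      field_simp
    · intro k hk hk2
      rw [Finset.mem_range] at hk
      rw [Finset.mem_Icc] at hk2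
      rcases Nat.eq_zero_or_pos k with rfl | hk3
      · simp
      · rw [Nat.choose_eq_zero_of_lt (show 2 * m < m + k by omega)]
        simp
  rw [h1, closed (n + 1) n hn (by omega) m]
  rcases le_total m n with h | h
  · rw [min_eq_right h, max_eq_left h]
    change _ = 1 / 2 * ((2 * n).choose n : ℚ) ^ 2 * ((2 * m).choose m : ℚ) *
        (1 - ((n : ℚ) + 2 * m) / m * ((n + m).choose n : ℚ)⁻¹ *
          ((n + m).choose n : ℚ)⁻¹ * T n m)
    field_simp
  · rw [min_eq_left h, max_eq_right h]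
    change _ = 1 / 2 * ((2 * n).choose n : ℚ) ^ 2 * ((2 * m).choose m : ℚ) *
        (1 - ((n : ℚ) + 2 * m) / n * ((n + m).choose n : ℚ)⁻¹ *
          ((n + n).choose n : ℚ)⁻¹ * V n m)
    obtain ⟨d, rfl⟩ : ∃ d, m = n + d := ⟨m - n, by omega⟩
    have h3 := VT n hn d
    have h4 : ((n + n).choose n : ℚ) ≠ 0 := by
      have := Nat.choose_pos (show n ≤ n + n by omega)
      positivity
    rw [two_mul n] at *
    have h5 : V n (n + d) = n * ((n + n).choose n : ℚ) * T n (n + d) /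
        (((n + d : ℕ) : ℚ) * ((n + (n + d)).choose n : ℚ)) := by
      rw [eq_div_iff (mul_ne_zero hm0 hu), ← h3]
      ring
    rw [h5]
    field_simp

end Pool.Agent.Results.MP_651eca_nt.Full
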